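import Pool.Agent.QSN.StmtsA

/-! # Squad QSN, row BRM: the brackets over the residue field (copy of `Helper10_QSX/BRK`) -/

set_option autoImplicit false

namespace Pool.Agent.QSN.H10

open Matrix Finset Pool.Agent.QSX

theorem brm_ue_zero {R : Type} [CommRing R] [Algebra ℝ R] {m : ℕ} :
    ue (0 : Matrix (Fin m) (Fin m) R) = 1 := by
  apply Units.ext
  rw [ue_val SU.zero, mexp_zero]; rfl

theorem brm_ue_pow {R : Type} [CommRing R] [Algebra ℝ R] {m : ℕ} {e : Matrix (Fin m) (Fin m) R}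
    (he : SU e) (x : ℕ) : (ue e) ^ x = ue ((x : ℝ) • e) := by
  induction x with
  | zero => rw [pow_zero, Nat.cast_zero, zero_smul, brm_ue_zero]
  | succ x ih =>
    rw [pow_succ, ih, Nat.cast_succ, ue_add' he, one_smul]

theorem brm_uu {R : Type} [CommRing R] [Algebra ℝ R] {m : ℕ} {x : Matrix (Fin m) (Fin m) R}
    (hx : SU x) : UU (mexp x) := by
  intro i j h
  unfold mexp
  rw [Finset.sum_range_succ', Matrix.sub_apply, Matrix.add_apply, Matrix.sum_apply]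
  have h1 : ∀ k ∈ range m, ((((k + 1).factorial : ℝ)⁻¹) • x ^ (k + 1)) i j = 0 := by
    intro k _
    have hij : (j : ℕ) ≤ i := h
    rw [Matrix.smul_apply, hx.pow_apply (k + 1) i j (by omega), smul_zero]
  rw [Finset.sum_eq_zero h1]
  simp

theorem brm (hNfl : NflStmt) (hSpt : SptStmt) (hCof : CofStmt) (hCvl : CvlStmt) (hTad : TadStmt)
    (hIvm : IvmStmt) (hGen : GenStmt) (hCmm : CmmStmt) : BrmStmt := by
  intro X Y hX F _ _ P A
  have hI := hIvm X Y hX F P A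
  have hG : A.rg.Gen := hGen X hX
  obtain ⟨nSU, -, -⟩ := hNfl Y F
  have hu : ∀ (l : hX.ι) (x : ℚ), ue ((x : ℝ) • hX.e l) ∈ hX.Gam :=
    fun l x => Subgroup.subset_closure ⟨l, x, rfl⟩
  have hC1 : ∀ l, A.C l ∈ Y.nF F ∧ A.rg.V l 1 1 = ue (A.C l) := fun l =>
    ⟨(hCvl X Y hX F P A l).1, (hCvl X Y hX F P A l).2.2.1⟩
  have hCS : ∀ l, SU (A.C l) := fun l => (hCvl X Y hX F P A l).2.1
  have hUU : ∀ l, UU ((A.rg.V l 1 1 : (Matrix (Fin Y.m) (Fin Y.m) F)ˣ) :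
      Matrix (Fin Y.m) (Fin Y.m) F) := by
    intro l
    rw [(hC1 l).2, ue_val (hCS l)]
    exact brm_uu (hCS l)
  have hCl : ∀ l, A.C l = mlog ((A.rg.V l 1 1 : (Matrix (Fin Y.m) (Fin Y.m) F)ˣ) :
      Matrix (Fin Y.m) (Fin Y.m) F) := by
    intro l
    have e1 : A.rg.V l 1 1 = (A.χ 1)⁻¹ * A.χ (ue (hX.e l)) := by
      show (A.χ 1)⁻¹ * A.χ (1 * ue (((1 : ℚ) : ℝ) • hX.e l)) = _
      rw [Rat.cast_one, one_smul, one_mul]
    rw [e1]
    rfl
  refine ⟨fun l => (hC1 l).1, ?_, ?_, ?_⟩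
  · -- nonzero
    intro l h0
    have h1 := (hC1 l).2
    rw [h0, brm_ue_zero] at h1
    exact A.nondeg 1 (one_mem _) l 1 one_ne_zero h1
  · -- support
    intro l i k hik
    let r : Fin Y.m → Fin Y.m → Prop := fun i k =>
      ∃ κ : ℝ, 0 < κ ∧ ∀ a, P a i - P a k = κ * hX.rt l a
    have htr : ∀ i j k, i < j → j < k → r i j → r j k → r i k := by
      rintro i j k _ _ ⟨κ, h1, h2⟩ ⟨κ', h3, h4⟩
      refine ⟨κ + κ', add_pos h1 h3, fun a => ?_⟩
      have := h2 a; have := h4 a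
      rw [add_mul]; linarith
    have hSp : Sp r ((A.rg.V l 1 1 : (Matrix (Fin Y.m) (Fin Y.m) F)ˣ) :
        Matrix (Fin Y.m) (Fin Y.m) F) := by
      refine ⟨hUU l, fun i k hik h => ?_⟩
      obtain ⟨h1, a₁, h2⟩ := A.supp 1 (one_mem _) (1 * ue (((1 : ℚ) : ℝ) • hX.e l))
        (hX.Gam.mul_mem (one_mem _) (hu l 1)) {l} (((1 : ℚ) : ℝ) • hX.e l)
        (Submodule.smul_mem _ _ (Submodule.subset_span ⟨l, rfl, rfl⟩)) rfl i k hik h
      obtain ⟨a₀, ha₀⟩ := hX.pos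
      let w : X.b →ₗ[ℝ] ℝ :=
        { toFun := fun a => P a i - P a k
          map_add' := fun a b => by rw [map_add, Pi.add_apply, Pi.add_apply]; ring
          map_smul' := fun c a => by
            rw [map_smul, Pi.smul_apply, Pi.smul_apply, smul_eq_mul, smul_eq_mul,
              RingHom.id_apply, smul_eq_mul]; ring }
      obtain ⟨κ, hκ, h3⟩ := fks (hX.rt l) w ⟨a₀, ha₀ l⟩
        (fun a ha => h1 a (by
          intro ν hν
          rw [Set.mem_singleton_iff] at hν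
          rw [hν]; exact ha))
      have h4 : ∀ a, P a i - P a k = κ * hX.rt l a := h3
      refine ⟨κ, lt_of_le_of_ne hκ ?_, h4⟩
      intro h0
      apply h2
      rw [h4, ← h0, zero_mul]
    have hlt : i < k := by
      by_contra h
      exact hik (hCS l i k (not_lt.1 h))
    have hlog := ((hSpt F Y.m r htr).2.2 _ hSp).2 i k hlt
    rw [← hCl l] at hlog
    exact hlog hik
  · -- brackets
    intro l l' hl
    refine hCof F Y.m hX.ι (A.C l) (A.C l') A.C (hX.L l l') (hCS l) (hCS l') (fun t _ => hCS _)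
      (fun t ht => ⟨(hX.L_rt l l' t ht).1, (hX.L_rt l l' t ht).2.1⟩) ?_
    intro x y
    have h1 := hCmm _ _ _ _ A.rg hI hG l l' hl x y
    rw [(hC1 l).2, (hC1 l').2, brm_ue_pow (hCS l), brm_ue_pow (hCS l')] at h1
    rw [h1]
    congr 1
    refine List.map_congr_left fun t ht => ?_
    have h3 := (hTad X Y hX F P A l l' hl t ht).1 t.1 rfl 1 (one_mem _)
      (t.2.2.2 * (x : ℚ) ^ t.2.1 * (y : ℚ) ^ t.2.2.1)
    have h4 : A.rg.V t.1 1 (t.2.2.2 * (x : ℚ) ^ t.2.1 * (y : ℚ) ^ t.2.2.1) =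
      ue (((t.2.2.2 * (x : ℚ) ^ t.2.1 * (y : ℚ) ^ t.2.2.1 : ℚ) : ℝ) • A.C t.1) := h3
    rw [h4]
    push_cast
    rfl

end Pool.Agent.QSN.H10
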