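import Pool.Agent.QSN.StmtsE

set_option autoImplicit false

/-! # Squad QSN, row MSD: the datum of `SL_n (𝔻)`, `n ≥ 3` -/

namespace Pool.Agent.QSN.H10

open Matrix Finset Pool.Agent.QSX Pool.Agent.QSX.H10

/-- the positions above the diagonal -/
abbrev PX (n : ℕ) : Type := {p : Fin n × Fin n // p.1 < p.2}

section msd

variable {k n : ℕ}

/-- a block at a position -/
noncomputable def sgl (k : ℕ) {n : ℕ} (i j : Fin n) :
    Matrix (Fin k) (Fin k) ℝ →ₗ[ℝ] Matrix (Fin (n * k)) (Fin (n * k)) ℝ :=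
  (blk k n).toLinearMap.comp
    { toFun := fun a => Matrix.single i j a
      map_add' := fun a b => by rw [← Matrix.single_add]
      map_smul' := fun r a => by rw [RingHom.id_apply, Matrix.smul_single] }

theorem sgl_apply (i j : Fin n) (a : Matrix (Fin k) (Fin k) ℝ) :
    sgl k i j a = blk k n (Matrix.single i j a) := rfl

theorem sgl_mul (i j h : Fin n) (a b : Matrix (Fin k) (Fin k) ℝ) :
    sgl k i j a * sgl k j h b = sgl k i h (a * b) := by
  rw [sgl_apply, sgl_apply, ← map_mul, Matrix.single_mul_single_same]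
  rfl

theorem sgl_mul_ne (i j h h' : Fin n) (hjh : j ≠ h) (a b : Matrix (Fin k) (Fin k) ℝ) :
    sgl k i j a * sgl k h h' b = 0 := by
  rw [sgl_apply, sgl_apply, ← map_mul, Matrix.single_mul_single_of_ne _ _ _ _ hjh, map_zero]

theorem sgl_inj {i j : Fin n} {a : Matrix (Fin k) (Fin k) ℝ} (h : sgl k i j a = 0) : a = 0 := by
  have h1 : (Matrix.single i j a : Matrix (Fin n) (Fin n) (Matrix (Fin k) (Fin k) ℝ)) = 0 := by
    apply (blk k n).injective
    rw [map_zero]
    exact h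
  have h2 := congrFun (congrFun h1 i) j
  rw [Matrix.single_apply_same] at h2
  exact h2

/-- the roots -/
noncomputable def rx (hk : 0 < k) (p : PX n) : bD n k →ₗ[ℝ] ℝ where
  toFun c := rd hk c.1 p.1.1 - rd hk c.1 p.1.2
  map_add' c c' := by
    show rd hk (c.1 + c'.1) p.1.1 - rd hk (c.1 + c'.1) p.1.2 = _
    rw [map_add, Pi.add_apply, Pi.add_apply]
    ring
  map_smul' r c := by
    show rd hk (r • c.1) p.1.1 - rd hk (r • c.1) p.1.2 = _
    rw [map_smul, Pi.smul_apply, Pi.smul_apply, smul_eq_mul, smul_eq_mul, RingHom.id_apply,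
      smul_eq_mul]
    ring

theorem rx_apply (hk : 0 < k) (p : PX n) (d : Fin n → ℝ) (hd : cst k n d ∈ bD n k) :
    rx hk p ⟨cst k n d, hd⟩ = d p.1.1 - d p.1.2 := by
  show rd hk (cst k n d) p.1.1 - rd hk (cst k n d) p.1.2 = _
  rw [rd_cst]

/-- a vector with prescribed differences -/
noncomputable def cx (k : ℕ) {n : ℕ} (hn : 0 < n) (f : Fin n → ℝ) : bD n k :=
  ⟨cst k n (fun i => f i - (∑ i, f i) / n), _, by
    have hn' : (n : ℝ) ≠ 0 := by exact_mod_cast hn.ne'
    rw [Finset.sum_sub_distrib, Finset.sum_const, Finset.card_univ, Fintype.card_fin,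
      nsmul_eq_mul, mul_div_cancel₀ _ hn', sub_self], rfl⟩

theorem rx_cx (hk : 0 < k) (hn : 0 < n) (p : PX n) (f : Fin n → ℝ) :
    rx hk p (cx k hn f) = f p.1.1 - f p.1.2 := by
  unfold cx
  rw [rx_apply]
  ring

theorem rx_smul (hk : 0 < k) (hn : 0 < n) {p p' : PX n} {c : ℝ}
    (h : rx hk p = c • rx hk p') : p = p' := by
  have h1 : ∀ f : Fin n → ℝ, f p.1.1 - f p.1.2 = c * (f p'.1.1 - f p'.1.2) := by
    intro f
    have h2 := congrArg (fun φ : bD n k →ₗ[ℝ] ℝ => φ (cx k hn f)) h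
    simp only [LinearMap.smul_apply, smul_eq_mul, rx_cx] at h2
    exact h2
  have hlt := p.2
  have hlt' := p'.2
  have ha : p.1.1 = p'.1.1 ∨ p.1.1 = p'.1.2 := by
    by_contra hc
    push Not at hc
    have h3 := h1 (Pi.single p.1.1 1)
    rw [Pi.single_eq_same, Pi.single_eq_of_ne hlt.ne', Pi.single_eq_of_ne (Ne.symm hc.1),
      Pi.single_eq_of_ne (Ne.symm hc.2)] at h3
    norm_num at h3
  have hb : p.1.2 = p'.1.1 ∨ p.1.2 = p'.1.2 := by
    by_contra hc
    push Not at hc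
    have h3 := h1 (Pi.single p.1.2 1)
    rw [Pi.single_eq_same, Pi.single_eq_of_ne hlt.ne, Pi.single_eq_of_ne (Ne.symm hc.1),
      Pi.single_eq_of_ne (Ne.symm hc.2)] at h3
    norm_num at h3
  apply Subtype.ext
  rw [Fin.lt_def] at hlt hlt'
  rcases ha with ha | ha <;> rcases hb with hb | hb
  · exfalso
    rw [ha, hb] at hlt
    exact lt_irrefl _ hlt
  · exact Prod.ext ha hb
  · exfalso
    rw [ha, hb] at hlt
    omega
  · exfalso
    rw [ha, hb] at hlt
    exact lt_irrefl _ hlt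

theorem rx_inj (hk : 0 < k) (hn : 0 < n) {p p' : PX n} (h : rx hk p = rx hk p') : p = p' :=
  rx_smul hk hn (c := 1) (by rw [one_smul]; exact h)

variable {T : Type} (v : T → Matrix (Fin k) (Fin k) ℝ)

/-- the root vectors -/
noncomputable def ex (n : ℕ) (l : PX n × T) : Matrix (Fin (n * k)) (Fin (n * k)) ℝ :=
  sgl k l.1.1.1 l.1.1.2 (v l.2)

theorem ex_rat (hv : ∀ t i j, ∃ q : ℚ, v t i j = (q : ℝ)) (l : PX n × T)
    (i j : Fin (n * k)) : ∃ q : ℚ, ex v n l i j = (q : ℝ) := by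
  obtain ⟨⟨a, a'⟩, rfl⟩ := finProdFinEquiv.surjective i
  obtain ⟨⟨b, b'⟩, rfl⟩ := finProdFinEquiv.surjective j
  rw [ex, sgl_apply, blk_apply, Matrix.single_apply]
  by_cases h : l.1.1.1 = a ∧ l.1.1.2 = b
  · rw [if_pos h]
    exact hv l.2 a' b'
  · rw [if_neg h]
    exact ⟨0, by rw [Matrix.zero_apply, Rat.cast_zero]⟩

theorem ex_span (𝔻 : Subalgebra ℝ (Matrix (Fin k) (Fin k) ℝ))
    (hv : Submodule.span ℝ (Set.range v) = Subalgebra.toSubmodule 𝔻) :
    Submodule.span ℝ (Set.range (ex v n)) = nD n 𝔻 := by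
  have hmem : ∀ t, v t ∈ 𝔻 := by
    intro t
    have h : v t ∈ Submodule.span ℝ (Set.range v) := Submodule.subset_span ⟨t, rfl⟩
    rw [hv] at h
    exact h
  apply le_antisymm
  · rw [Submodule.span_le]
    rintro _ ⟨l, rfl⟩
    refine ⟨Matrix.single l.1.1.1 l.1.1.2 (v l.2), ⟨fun i j => ?_, fun i j h => ?_⟩, rfl⟩
    · rw [Matrix.single_apply]
      by_cases h : l.1.1.1 = i ∧ l.1.1.2 = j
      · rw [if_pos h]; exact hmem _
      · rw [if_neg h]; exact 𝔻.zero_mem
    · rw [Matrix.single_apply, if_neg]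
      rintro ⟨h1, h2⟩
      have h3 := l.1.2
      rw [h1, h2] at h3
      exact absurd h (not_le.2 h3)
  · rintro _ ⟨x, hx, rfl⟩
    have h1 : blk k n x = ∑ i, ∑ j, sgl k i j (x i j) := by
      conv_lhs => rw [Matrix.matrix_eq_sum_single x]
      rw [map_sum]
      refine Finset.sum_congr rfl fun i _ => ?_
      rw [map_sum]
      rfl
    rw [h1]
    refine Submodule.sum_mem _ fun i _ => Submodule.sum_mem _ fun j _ => ?_
    by_cases hij : i < j
    · have h2 : x i j ∈ Submodule.span ℝ (Set.range v) := by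
        rw [hv]; exact hx.1 i j
      have h3 : sgl k i j (x i j) ∈
          (Submodule.span ℝ (Set.range v)).map (sgl k i j) := ⟨_, h2, rfl⟩
      rw [Submodule.map_span] at h3
      refine Submodule.span_mono ?_ h3
      rintro _ ⟨_, ⟨t, rfl⟩, rfl⟩
      exact ⟨(⟨(i, j), hij⟩, t), rfl⟩
    · rw [hx.2 i j (not_lt.1 hij), map_zero]
      exact Submodule.zero_mem _

theorem ex_lin [Fintype T] (hv : LinearIndependent ℝ v) : LinearIndependent ℝ (ex v n) := by
  rw [Fintype.linearIndependent_iff] at hv ⊢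
  intro g hg l
  have h1 : blk k n (∑ l : PX n × T, g l • Matrix.single l.1.1.1 l.1.1.2 (v l.2)) = 0 := by
    rw [map_sum, ← hg]
    refine Finset.sum_congr rfl fun l _ => ?_
    rw [map_smul]
    rfl
  have h2 : (∑ l : PX n × T, g l • Matrix.single l.1.1.1 l.1.1.2 (v l.2) :
      Matrix (Fin n) (Fin n) (Matrix (Fin k) (Fin k) ℝ)) = 0 := by
    apply (blk k n).injective
    rw [map_zero]
    exact h1
  have h3 := congrFun (congrFun h2 l.1.1.1) l.1.1.2
  rw [Matrix.sum_apply, Fintype.sum_prod_type, Finset.sum_eq_single l.1] at h3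
  · have h4 : ∑ t, g (l.1, t) • v t = 0 := by
      rw [Matrix.zero_apply] at h3
      rw [← h3]
      refine Finset.sum_congr rfl fun t _ => ?_
      rw [Matrix.smul_apply, Matrix.single_apply_same]
    exact hv _ h4 l.2
  · intro p _ hp
    refine Finset.sum_eq_zero fun t _ => ?_
    rw [Matrix.smul_apply, Matrix.single_apply, if_neg, smul_zero]
    rintro ⟨e1, e2⟩
    exact hp (Subtype.ext (Prod.ext e1 e2))
  · intro h
    exact absurd (Finset.mem_univ _) h

theorem ex_wt (hk : 0 < k) (l : PX n × T) (c : bD n k) :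
    diagonal (c : Fin (n * k) → ℝ) * ex v n l - ex v n l * diagonal (c : Fin (n * k) → ℝ) =
      rx hk l.1 c • ex v n l := by
  obtain ⟨_, d, hd, rfl⟩ := c
  rw [rx_apply]
  show diagonal (cst k n d) * ex v n l - ex v n l * diagonal (cst k n d) = _
  rw [ex, sgl_apply, ← blk_dia, ← map_mul, ← map_mul, ← map_sub, ← map_smul]
  congr 1
  refine Matrix.ext fun i j => ?_
  rw [Matrix.sub_apply, dia, Matrix.diagonal_mul, Matrix.mul_diagonal, Matrix.smul_mul,
    Matrix.mul_smul, Matrix.one_mul, Matrix.mul_one, ← sub_smul, Matrix.smul_apply,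
    Matrix.single_apply]
  by_cases h : l.1.1.1 = i ∧ l.1.1.2 = j
  · rw [if_pos h, h.1, h.2]
  · rw [if_neg h, smul_zero, smul_zero]

/-- if a linear map vanishes on the `v t` it vanishes at `1` -/
theorem one_of_span (h1 : (1 : Matrix (Fin k) (Fin k) ℝ) ∈ Submodule.span ℝ (Set.range v))
    {M : Type} [AddCommGroup M] [Module ℝ M] (φ : Matrix (Fin k) (Fin k) ℝ →ₗ[ℝ] M)
    (P : Submodule ℝ M) (h : ∀ t, φ (v t) ∈ P) : φ 1 ∈ P := by
  have h2 : Submodule.span ℝ (Set.range v) ≤ P.comap φ := by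
    rw [Submodule.span_le]
    rintro _ ⟨t, rfl⟩
    exact h t
  exact h2 h1

theorem msd_aux (hk : 0 < k) (hn : 3 ≤ n) (𝔻 : Subalgebra ℝ (Matrix (Fin k) (Fin k) ℝ))
    [Fintype T] [DecidableEq T] (hv : Submodule.span ℝ (Set.range v) = Subalgebra.toSubmodule 𝔻)
    (hr : ∀ t i j, ∃ q : ℚ, v t i j = (q : ℝ)) (hl : LinearIndependent ℝ v) :
    Nonempty (MRS (datD n 𝔻)) := by
  have hn0 : 0 < n := by omega
  have hone : (1 : Matrix (Fin k) (Fin k) ℝ) ∈ Submodule.span ℝ (Set.range v) := by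
    rw [hv]; exact 𝔻.one_mem
  have hne : Nonempty T := by
    by_contra hc
    rw [not_nonempty_iff] at hc
    rw [Set.range_eq_empty, Submodule.span_empty, Submodule.mem_bot] at hone
    have h1 := congrFun (congrFun hone (⟨0, hk⟩ : Fin k)) ⟨0, hk⟩
    rw [Matrix.one_apply_eq, Matrix.zero_apply] at h1
    exact one_ne_zero h1
  obtain ⟨t₀⟩ := hne
  let z : Fin n := ⟨0, hn0⟩
  let w : Fin n := ⟨n - 1, by omega⟩
  have hzw : z < w := by
    rw [Fin.lt_def]
    show 0 < n - 1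
    omega
  refine ⟨{
    ι := PX n × T
    fin := inferInstance
    dec := inferInstance
    e := ex v n
    rat := fun l i j => ex_rat v hr l i j
    span_e := ex_span v 𝔻 hv
    lin := ex_lin v hl
    rt := fun l => rx hk l.1
    wt := fun l c => ex_wt v hk l c
    pos := ?_
    sep := ?_
    nonprop := ?_
    gen := ?_
    J := Unit
    comp := fun _ => ()
    top := fun _ => (⟨(z, w), hzw⟩, t₀)
    comp_top := fun _ => rfl
    comp_rt := fun _ _ _ => rfl
    climb := ?_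
    rank1 := ?_
    scal := ?_ }⟩
  · refine ⟨cx k hn0 (fun i => -((i : ℕ) : ℝ)), ?_⟩
    intro l
    have h0 : rx hk l.1 (cx k hn0 (fun i => -((i : ℕ) : ℝ))) =
      -((l.1.1.1 : ℕ) : ℝ) - -((l.1.1.2 : ℕ) : ℝ) := rx_cx hk hn0 _ _
    have h1 : ((l.1.1.1 : ℕ) : ℝ) < ((l.1.1.2 : ℕ) : ℝ) := by
      exact_mod_cast (Fin.lt_def.mp l.1.2)
    show 0 < rx hk l.1 _
    rw [h0]
    linarith
  · rintro ⟨_, d, hd, rfl⟩ ha
    have h1 : ∀ i : Fin n, d i = d z := by
      intro i
      rcases eq_or_ne i z with h | h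
      · rw [h]
      · have h2 : z < i := by
          rw [Fin.lt_def]
          show 0 < (i : ℕ)
          rcases Nat.eq_zero_or_pos (i : ℕ) with h3 | h3
          · exact absurd (Fin.ext h3) h
          · exact h3
        have h3 := ha (⟨(z, i), h2⟩, t₀)
        have h4 : rx hk (⟨(z, i), h2⟩ : PX n) ⟨cst k n d, d, hd, rfl⟩ = d z - d i :=
          rx_apply hk _ d _
        have h5 : d z - d i = 0 := h4.symm.trans h3
        linarith
    rw [Finset.sum_congr rfl (fun i _ => h1 i), Finset.sum_const, Finset.card_univ,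
      Fintype.card_fin, nsmul_eq_mul] at hd
    have h3 : (n : ℝ) ≠ 0 := by exact_mod_cast hn0.ne'
    have h4 : d z = 0 := by
      rcases mul_eq_zero.mp hd with h5 | h5
      · exact absurd h5 h3
      · exact h5
    have h5 : d = 0 := by
      funext i
      rw [h1 i, h4]; rfl
    apply Subtype.ext
    show cst k n d = 0
    rw [h5]
    rfl
  · intro l l' hl c h
    apply hl
    have h1 : l.1 = l'.1 := rx_smul hk hn0 h
    show rx hk l.1 = rx hk l'.1
    rw [h1]
  · intro t l l' hl p q hp hq ht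
    have h1 := congrArg (fun φ : bD n k →ₗ[ℝ] ℝ => φ (cx k hn0 (fun i => -((i : ℕ) : ℝ)))) ht
    have h2 : rx hk t.1 (cx k hn0 (fun i => -((i : ℕ) : ℝ))) =
      (p : ℝ) * rx hk l.1 (cx k hn0 (fun i => -((i : ℕ) : ℝ))) +
      (q : ℝ) * rx hk l'.1 (cx k hn0 (fun i => -((i : ℕ) : ℝ))) := h1
    rw [rx_cx, rx_cx, rx_cx] at h2
    have hp' : (1 : ℝ) ≤ p := by exact_mod_cast hp
    have hq' : (1 : ℝ) ≤ q := by exact_mod_cast hq
    have hl1 : ((l.1.1.1 : ℕ) : ℝ) + 1 ≤ ((l.1.1.2 : ℕ) : ℝ) := by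
      exact_mod_cast (Fin.lt_def.mp l.1.2)
    have hl2 : ((l'.1.1.1 : ℕ) : ℝ) + 1 ≤ ((l'.1.1.2 : ℕ) : ℝ) := by
      exact_mod_cast (Fin.lt_def.mp l'.1.2)
    have h3 : ((t.1.1.1 : ℕ) : ℝ) + 2 ≤ ((t.1.1.2 : ℕ) : ℝ) := by nlinarith
    have h4 : (t.1.1.1 : ℕ) + 2 ≤ (t.1.1.2 : ℕ) := by exact_mod_cast h3
    have hjn := t.1.1.2.2
    let h : Fin n := ⟨(t.1.1.1 : ℕ) + 1, by omega⟩
    have hih : t.1.1.1 < h := by
      rw [Fin.lt_def]
      show (t.1.1.1 : ℕ) < (t.1.1.1 : ℕ) + 1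
      omega
    have hhj : h < t.1.1.2 := by
      rw [Fin.lt_def]
      show (t.1.1.1 : ℕ) + 1 < (t.1.1.2 : ℕ)
      omega
    have key := one_of_span v hone (M := Matrix (Fin (n * k)) (Fin (n * k)) ℝ)
      ((LinearMap.mulRight ℝ (sgl k h t.1.1.2 (v t.2)) -
        LinearMap.mulLeft ℝ (sgl k h t.1.1.2 (v t.2))).comp (sgl k t.1.1.1 h))
      (Submodule.span ℝ {z | ∃ w w' : PX n × T, rx hk w.1 ≠ rx hk w'.1 ∧
        rx hk w.1 + rx hk w'.1 = rx hk t.1 ∧
        z = ex v n w * ex v n w' - ex v n w' * ex v n w}) ?_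
    · have e1 : ((LinearMap.mulRight ℝ (sgl k h t.1.1.2 (v t.2)) -
        LinearMap.mulLeft ℝ (sgl k h t.1.1.2 (v t.2))).comp (sgl k t.1.1.1 h)) 1 = ex v n t := by
        show sgl k t.1.1.1 h 1 * sgl k h t.1.1.2 (v t.2) -
          sgl k h t.1.1.2 (v t.2) * sgl k t.1.1.1 h 1 = sgl k t.1.1.1 t.1.1.2 (v t.2)
        rw [sgl_mul, sgl_mul_ne _ _ _ _ t.1.2.ne', sub_zero, one_mul]
      rw [e1] at key
      exact key
    · intro s
      apply Submodule.subset_span
      refine ⟨(⟨(t.1.1.1, h), hih⟩, s), (⟨(h, t.1.1.2), hhj⟩, t.2), ?_, ?_, rfl⟩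
      · intro hc
        have h5 := congrArg (fun p : PX n => p.1.1) (rx_inj hk hn0 hc)
        exact hih.ne h5
      · apply LinearMap.ext
        rintro ⟨_, d, hd, rfl⟩
        rw [LinearMap.add_apply, rx_apply, rx_apply, rx_apply]
        ring
  · -- climb
    intro l hltop x hx hbr
    have hx1 : ∃ a, x = sgl k l.1.1.1 l.1.1.2 a := by
      have h1 : Submodule.span ℝ (ex v n '' {l' | rx hk l'.1 = rx hk l.1}) ≤
          LinearMap.range (sgl k l.1.1.1 l.1.1.2) := by
        rw [Submodule.span_le]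
        rintro _ ⟨l', hl', rfl⟩
        have h2 : l'.1 = l.1 := rx_inj hk hn0 hl'
        refine ⟨v l'.2, ?_⟩
        rw [ex, h2]
      obtain ⟨a, ha⟩ := h1 hx
      exact ⟨a, ha.symm⟩
    obtain ⟨a, rfl⟩ := hx1
    have hne2 : l.1 ≠ ⟨(z, w), hzw⟩ := by
      intro h
      apply hltop
      show rx hk l.1 = rx hk ⟨(z, w), hzw⟩
      rw [h]
    suffices ha : a = 0 by
      rw [ha]
      exact map_zero _
    by_cases hj : l.1.1.2 = w
    · have hi : z < l.1.1.1 := by
        rw [Fin.lt_def]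
        show 0 < (l.1.1.1 : ℕ)
        rcases Nat.eq_zero_or_pos (l.1.1.1 : ℕ) with h3 | h3
        · exfalso
          apply hne2
          apply Subtype.ext
          exact Prod.ext (Fin.ext h3) hj
        · exact h3
      have key := one_of_span v hone (LinearMap.mulRight ℝ a) ⊥ (fun s => by
        rw [Submodule.mem_bot]
        have h1 := hbr (⟨(z, l.1.1.1), hi⟩, s) (by
          intro hc
          have h5 := congrArg (fun p : PX n => p.1.1) (rx_inj hk hn0 hc)
          exact hi.ne h5)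
        have h2 : sgl k l.1.1.1 l.1.1.2 a * sgl k z l.1.1.1 (v s) -
          sgl k z l.1.1.1 (v s) * sgl k l.1.1.1 l.1.1.2 a = 0 := h1
        rw [sgl_mul, sgl_mul_ne _ _ _ _ (hi.trans l.1.2).ne', zero_sub, neg_eq_zero] at h2
        exact sgl_inj h2)
      rw [Submodule.mem_bot] at key
      have h1 : (1 : Matrix (Fin k) (Fin k) ℝ) * a = 0 := key
      rwa [one_mul] at h1
    · have hj' : l.1.1.2 < w := by
        rw [Fin.lt_def]
        show (l.1.1.2 : ℕ) < n - 1
        have h1 := l.1.1.2.isLt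
        rcases Nat.lt_or_ge (l.1.1.2 : ℕ) (n - 1) with h2 | h2
        · exact h2
        · exfalso
          apply hj
          apply Fin.ext
          show (l.1.1.2 : ℕ) = n - 1
          omega
      have key := one_of_span v hone (LinearMap.mulLeft ℝ a) ⊥ (fun s => by
        rw [Submodule.mem_bot]
        have h1 := hbr (⟨(l.1.1.2, w), hj'⟩, s) (by
          intro hc
          have h5 := congrArg (fun p : PX n => p.1.1) (rx_inj hk hn0 hc)
          exact l.1.2.ne' h5)
        have h2 : sgl k l.1.1.1 l.1.1.2 a * sgl k l.1.1.2 w (v s) -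
          sgl k l.1.1.2 w (v s) * sgl k l.1.1.1 l.1.1.2 a = 0 := h1
        rw [sgl_mul, sgl_mul_ne _ _ _ _ (l.1.2.trans hj').ne', sub_zero] at h2
        exact sgl_inj h2)
      rw [Submodule.mem_bot] at key
      have h1 : a * (1 : Matrix (Fin k) (Fin k) ℝ) = 0 := key
      rwa [mul_one] at h1
  · intro l hl
    exfalso
    let o : Fin n := ⟨1, by omega⟩
    let u : Fin n := ⟨2, by omega⟩
    have hzo : z < o := by
      rw [Fin.lt_def]
      show 0 < 1
      omega
    have hzu : z < u := by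
      rw [Fin.lt_def]
      show 0 < 2
      omega
    have h1 : rx hk (⟨(z, o), hzo⟩ : PX n) = rx hk l.1 := hl (⟨(z, o), hzo⟩, t₀) rfl
    have h2 : rx hk (⟨(z, u), hzu⟩ : PX n) = rx hk l.1 := hl (⟨(z, u), hzu⟩, t₀) rfl
    have h3 := congrArg (fun p : PX n => ((p.1.2 : Fin n) : ℕ)) (rx_inj hk hn0 (h1.trans h2.symm))
    have h4 : (1 : ℕ) = 2 := h3
    omega
  · intro κ _
    refine ⟨κ () • LinearMap.id, ?_⟩
    intro l a
    rw [LinearMap.smul_apply, LinearMap.id_apply, map_smul, smul_eq_mul]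

end msd

theorem msd : MsdStmt := by
  classical
  intro k n 𝔻 hk hn hR
  obtain ⟨S, hS, hSp⟩ := hR
  obtain ⟨B, hB, hspan, hlin⟩ := exists_linearIndependent ℝ S
  have hfin : B.Finite := hlin.setFinite
  have : Fintype B := hfin.fintype
  refine msd_aux (T := B) (fun t => t.1) hk hn 𝔻 ?_ (fun t i j => hS _ (hB t.2) i j) hlin
  have e : Set.range (fun t : B => t.1) = B := Subtype.range_coe
  rw [e, hspan, hSp]

end Pool.Agent.QSN.H10
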