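import Pool.Agent.QSN.StmtsD

set_option autoImplicit false

/-! # Squad QSN, row SWD: the weights are different -/

namespace Pool.Agent.QSN.H10

open Matrix Finset Pool.Agent.QSX

variable {N : ℕ}

/-- a vector of sum zero with prescribed differences -/
noncomputable def cz (f : Fin (N + 2) → ℝ) : SZ (N + 2) :=
  ⟨fun i => f i - (∑ i, f i) / ((N + 2 : ℕ) : ℝ), by
    have hn' : ((N + 2 : ℕ) : ℝ) ≠ 0 := by
      have : N + 2 ≠ 0 := by omega
      exact_mod_cast this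
    rw [Finset.sum_sub_distrib, Finset.sum_const, Finset.card_univ, Fintype.card_fin,
      nsmul_eq_mul, mul_div_cancel₀ _ hn', sub_self]⟩

theorem ep_cz (f : Fin (N + 2) → ℝ) (i j : Fin (N + 2)) : ep i j (cz f) = f i - f j := by
  show (f i - (∑ i, f i) / ((N + 2 : ℕ) : ℝ)) - (f j - (∑ i, f i) / ((N + 2 : ℕ) : ℝ)) = _
  ring

/-- the test vectors: `A` at `0`, `B` at the last index, `g` in the middle -/
noncomputable def ev (A B : ℝ) (g : Fin N → ℝ) : SZ (N + 2) :=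
  cz (Fin.cons A (Fin.snoc (α := fun _ => ℝ) g B))

theorem ev_0 (A B : ℝ) (g : Fin N → ℝ) :
    (Fin.cons A (Fin.snoc (α := fun _ => ℝ) g B) : Fin (N + 2) → ℝ) 0 = A := rfl

theorem ev_l (A B : ℝ) (g : Fin N → ℝ) :
    (Fin.cons A (Fin.snoc (α := fun _ => ℝ) g B) : Fin (N + 2) → ℝ) (la N) = B := by
  show (Fin.cons A (Fin.snoc (α := fun _ => ℝ) g B) : Fin (N + 2) → ℝ) (Fin.last (N + 1)) = B
  rw [← Fin.succ_last, Fin.cons_succ, Fin.snoc_last]

theorem ev_m (A B : ℝ) (g : Fin N → ℝ) (j : Fin N) :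
    (Fin.cons A (Fin.snoc (α := fun _ => ℝ) g B) : Fin (N + 2) → ℝ) (md j) = g j := by
  show (Fin.cons A (Fin.snoc (α := fun _ => ℝ) g B) : Fin (N + 2) → ℝ) j.castSucc.succ = g j
  rw [Fin.cons_succ, Fin.snoc_castSucc]

theorem ep_t (A B : ℝ) (g : Fin N → ℝ) : ep 0 (la N) (ev A B g) = A - B := by
  rw [ev, ep_cz, ev_0, ev_l]

theorem ep_ml (A B : ℝ) (g : Fin N → ℝ) (j : Fin N) :
    ep (md j) (la N) (ev A B g) = g j - B := by
  rw [ev, ep_cz, ev_m, ev_l]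

theorem ep_0m (A B : ℝ) (g : Fin N → ℝ) (j : Fin N) :
    ep 0 (md j) (ev A B g) = A - g j := by
  rw [ev, ep_cz, ev_m, ev_0]

theorem wo_0 (A B : ℝ) (g : Fin N → ℝ) : wo (Sum.inl 0) (ev A B g) = 0 := rfl

theorem wo_1 (A B : ℝ) (g : Fin N → ℝ) : wo (Sum.inl 1) (ev A B g) = A - B := ep_t A B g

theorem wo_2 (A B : ℝ) (g : Fin N → ℝ) (j : Fin N) :
    wo (Sum.inr (Sum.inl j)) (ev A B g) = g j - B := ep_ml A B g j

theorem wo_3 (A B : ℝ) (g : Fin N → ℝ) (j : Fin N) :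
    wo (Sum.inr (Sum.inr j)) (ev A B g) = A - g j := ep_0m A B g j

theorem wo_t1 : ∀ i : Fin 2 ⊕ (Fin N ⊕ Fin N), wo i (ev 1 0 0) = 0 ∨ wo i (ev 1 0 0) = 1
  | Sum.inl 0 => Or.inl (wo_0 _ _ _)
  | Sum.inl 1 => Or.inr ((wo_1 _ _ _).trans (by norm_num))
  | Sum.inr (Sum.inl j) => Or.inl ((wo_2 _ _ _ j).trans (by norm_num))
  | Sum.inr (Sum.inr j) => Or.inr ((wo_3 _ _ _ j).trans (by norm_num))

theorem wo_t2 : ∀ i : Fin 2 ⊕ (Fin N ⊕ Fin N), wo i (ev 0 1 0) = 0 ∨ wo i (ev 0 1 0) = -1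
  | Sum.inl 0 => Or.inl (wo_0 _ _ _)
  | Sum.inl 1 => Or.inr ((wo_1 _ _ _).trans (by norm_num))
  | Sum.inr (Sum.inl j) => Or.inr ((wo_2 _ _ _ j).trans (by norm_num))
  | Sum.inr (Sum.inr j) => Or.inl ((wo_3 _ _ _ j).trans (by norm_num))

theorem wo_inj : Function.Injective (wo : (Fin 2 ⊕ (Fin N ⊕ Fin N)) → SZ (N + 2) → ℝ) := by
  have key : ∀ i i' : Fin 2 ⊕ (Fin N ⊕ Fin N), wo i = wo i' →
      ∀ (A B : ℝ) (g : Fin N → ℝ), wo i (ev A B g) = wo i' (ev A B g) :=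
    fun i i' h A B g => congrFun h _
  intro i i' h
  have k := key i i' h
  have k1 := k 1 0 0
  have k2 := k 0 1 0
  clear h
  match i, i', k, k1, k2 with
  | Sum.inl 0, Sum.inl 0, _, _, _ => rfl
  | Sum.inl 0, Sum.inl 1, _, k1, _ => rw [wo_0, wo_1] at k1; norm_num at k1
  | Sum.inl 0, Sum.inr (Sum.inl j), _, _, k2 => rw [wo_0, wo_2] at k2; norm_num at k2
  | Sum.inl 0, Sum.inr (Sum.inr j), _, k1, _ => rw [wo_0, wo_3] at k1; norm_num at k1
  | Sum.inl 1, Sum.inl 0, _, k1, _ => rw [wo_0, wo_1] at k1; norm_num at k1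
  | Sum.inl 1, Sum.inl 1, _, _, _ => rfl
  | Sum.inl 1, Sum.inr (Sum.inl j), _, k1, _ => rw [wo_1, wo_2] at k1; norm_num at k1
  | Sum.inl 1, Sum.inr (Sum.inr j), _, _, k2 => rw [wo_1, wo_3] at k2; norm_num at k2
  | Sum.inr (Sum.inl j), Sum.inl 0, _, _, k2 => rw [wo_0, wo_2] at k2; norm_num at k2
  | Sum.inr (Sum.inl j), Sum.inl 1, _, k1, _ => rw [wo_1, wo_2] at k1; norm_num at k1
  | Sum.inr (Sum.inl j), Sum.inr (Sum.inl j'), k, _, _ =>
    have h := k 0 0 (Pi.single j 1)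
    rw [wo_2, wo_2, Pi.single_eq_same] at h
    by_cases hj : j' = j
    · rw [hj]
    · rw [Pi.single_eq_of_ne hj] at h
      norm_num at h
  | Sum.inr (Sum.inl j), Sum.inr (Sum.inr j'), _, k1, _ => rw [wo_2, wo_3] at k1; norm_num at k1
  | Sum.inr (Sum.inr j), Sum.inl 0, _, k1, _ => rw [wo_0, wo_3] at k1; norm_num at k1
  | Sum.inr (Sum.inr j), Sum.inl 1, _, _, k2 => rw [wo_1, wo_3] at k2; norm_num at k2
  | Sum.inr (Sum.inr j), Sum.inr (Sum.inl j'), _, k1, _ => rw [wo_2, wo_3] at k1; norm_num at k1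
  | Sum.inr (Sum.inr j), Sum.inr (Sum.inr j'), k, _, _ =>
    have h := k 0 0 (Pi.single j 1)
    rw [wo_3, wo_3, Pi.single_eq_same] at h
    by_cases hj : j' = j
    · rw [hj]
    · rw [Pi.single_eq_of_ne hj] at h
      norm_num at h

theorem swd : SwdStmt := by
  intro N
  refine ⟨wo_inj, ?_, ?_, ?_⟩
  · intro i h
    have h1 := congrFun h (ev 1 0 0)
    rw [Pi.add_apply, ep_t] at h1
    rcases wo_t1 i with h2 | h2 <;> rw [h2] at h1 <;> norm_num at h1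
  · intro j i
    refine ⟨fun h => ?_, fun h => ?_, fun h => ?_, fun h => ?_⟩
    · have h1 := congrFun h (ev 0 1 0)
      rw [Pi.add_apply, ep_t, ep_ml] at h1
      rcases wo_t2 i with h2 | h2 <;> rw [h2] at h1 <;> norm_num at h1
    · have h1 := congrFun h (ev 1 0 0)
      rw [Pi.add_apply, ep_t, ep_0m] at h1
      rcases wo_t1 i with h2 | h2 <;> rw [h2] at h1 <;> norm_num at h1
    · have h1 := congrFun h (ev 0 1 0)
      rw [Pi.add_apply, ep_ml] at h1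
      rcases wo_t2 i with h2 | h2 <;> rw [h2] at h1 <;> norm_num at h1
    · have h1 := congrFun h (ev 1 0 0)
      rw [Pi.add_apply, ep_0m] at h1
      rcases wo_t1 i with h2 | h2 <;> rw [h2] at h1 <;> norm_num at h1
  · intro j
    refine ⟨fun h => ?_, fun h => ?_, fun h => ?_, fun h => ?_, fun h => ?_⟩
    · have h1 := congrFun h (ev 1 0 0)
      rw [Pi.add_apply, Pi.add_apply, ep_t, ep_ml, ep_0m] at h1
      norm_num at h1
    · have h1 := congrFun h (ev 1 0 0)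
      rw [Pi.add_apply, Pi.add_apply, ep_t, ep_ml] at h1
      norm_num at h1
    · have h1 := congrFun h (ev 0 1 0)
      rw [Pi.add_apply, Pi.add_apply, ep_t, ep_0m] at h1
      norm_num at h1
    · have h1 := congrFun h (ev 1 0 0)
      rw [Pi.add_apply, Pi.add_apply, ep_t, ep_ml] at h1
      norm_num at h1
    · have h1 := congrFun h (ev 0 1 0)
      rw [Pi.add_apply, Pi.add_apply, ep_t, ep_0m] at h1
      norm_num at h1

end Pool.Agent.QSN.H10
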